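import Mathlib
import Pool.Agent.Q316.BtteCore

/-!
# `0'_btte` has only countably many minimal covers in the btte-degrees
-/

set_option autoImplicit false

namespace Pool.Agent.Results.MP_36bef2_lc.CountablyManyCovers

/-! ### Definitions used in the statement -/

/-- `Ψ^B = {x : ∃ D, ⟨x, D⟩ ∈ Ψ ∧ D ⊆ B}`; the finite sets `D` are given by lists. -/
def app (Ψ : Set (ℕ × List ℕ)) (B : Set ℕ) : Set ℕ := {x | ∃ D, (x, D) ∈ Ψ ∧ ∀ y ∈ D, y ∈ B}

/-- The set `⋃ ε_x` of all numbers occurring in the finite sets `D` with `⟨x, D⟩ ∈ Ψ`. -/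
def supp (Ψ : Set (ℕ × List ℕ)) (x : ℕ) : Set ℕ := {y | ∃ D, (x, D) ∈ Ψ ∧ y ∈ D}

/-- `Ψ` is btt-like. -/
def BttLike (Ψ : Set (ℕ × List ℕ)) : Prop := ∃ n : ℕ, ∀ x, (supp Ψ x).encard ≤ n

/-- `A ≤_btte B`: `A = Ψ^B` for a btt-like enumeration operator (c.e. set of pairs) `Ψ`. -/
def Le (A B : Set ℕ) : Prop :=
  ∃ Ψ : Set (ℕ × List ℕ), REPred (fun p => p ∈ Ψ) ∧ BttLike Ψ ∧ A = app Ψ B

/-- The halting set. -/
def K : Set ℕ := {n | ((Denumerable.ofNat Nat.Partrec.Code n).eval n).Dom}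

/-- `B` is a `Σ⁰₂` set. -/
def IsSigma02 (B : Set ℕ) : Prop :=
  ∃ R : ℕ × ℕ × ℕ → Bool, Computable R ∧ ∀ x, x ∈ B ↔ ∃ a, ∀ b, R (x, a, b) = true

/-! ### `≤_btte` is a preorder -/

open Encodable Pool.Agent.Helper578.JD Pool.Agent.Helper578.JD.Oracle Pool.Agent.Helper578.JD.Defs
open Pool.Agent.Q316.GC Pool.Agent.Q316.BT

theorem Le.refl (A : Set ℕ) : Le A A := by
  refine ⟨{p | p.2 = [p.1]}, ?_, ⟨1, fun x => ?_⟩, ?_⟩
  · exact RE.eq (f := fun p : ℕ × List ℕ => p.2) (g := fun p => [p.1]) (by fun_prop) (by fun_prop)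
  · have : supp {p : ℕ × List ℕ | p.2 = [p.1]} x ⊆ {x} := by
      rintro y ⟨D, h1, h2⟩
      have h1' : D = [x] := h1
      rw [h1'] at h2
      simpa using h2
    exact (Set.encard_le_encard this).trans (by simp)
  · ext x
    constructor
    · intro h
      exact ⟨[x], rfl, by simpa using h⟩
    · rintro ⟨D, h1, h2⟩
      have h1' : D = [x] := h1
      exact h2 x (by rw [h1']; simp)

theorem Le.trans {A B C : Set ℕ} (h1 : Le A B) (h2 : Le B C) : Le A C := by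
  obtain ⟨Φ, hΦ, ⟨n, hn⟩, rfl⟩ := h1
  obtain ⟨Ψ, hΨ, ⟨k, hk⟩, rfl⟩ := h2
  let Θ : Set (ℕ × List ℕ) := {p | ∃ E, (p.1, E) ∈ Φ ∧
    (∀ y ∈ E, ∃ D, (y, D) ∈ Ψ ∧ ∀ z ∈ D, z ∈ p.2) ∧ ∀ z ∈ p.2, ∃ y ∈ E, ∃ D, (y, D) ∈ Ψ ∧ z ∈ D}
  refine ⟨Θ, ?_, ⟨n * k, fun x => ?_⟩, ?_⟩
  · refine RE.ex (p := fun (p : ℕ × List ℕ) (E : List ℕ) => (p.1, E) ∈ Φ ∧
      (∀ y ∈ E, ∃ D, (y, D) ∈ Ψ ∧ ∀ z ∈ D, z ∈ p.2) ∧
        ∀ z ∈ p.2, ∃ y ∈ E, ∃ D, (y, D) ∈ Ψ ∧ z ∈ D) ?_
    refine RE.and ?_ (RE.and ?_ ?_)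
    · exact RE.comp hΦ (f := fun x : (ℕ × List ℕ) × List ℕ => (x.1.1, x.2)) (by fun_prop)
    · refine RE.all_mem (p := fun (x : (ℕ × List ℕ) × List ℕ) (y : ℕ) =>
        ∃ D, (y, D) ∈ Ψ ∧ ∀ z ∈ D, z ∈ x.1.2) (l := fun x => x.2) ?_ (by fun_prop)
      refine RE.ex (p := fun (x : ((ℕ × List ℕ) × List ℕ) × ℕ) (D : List ℕ) =>
        (x.2, D) ∈ Ψ ∧ ∀ z ∈ D, z ∈ x.1.1.2) ?_
      refine RE.and ?_ ?_
      · exact RE.comp hΨ (f := fun x : (((ℕ × List ℕ) × List ℕ) × ℕ) × List ℕ => (x.1.2, x.2))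
          (by fun_prop)
      · refine RE.all_mem (p := fun (x : (((ℕ × List ℕ) × List ℕ) × ℕ) × List ℕ) (z : ℕ) =>
          z ∈ x.1.1.1.2) (l := fun x => x.2) ?_ (by fun_prop)
        exact RE.mem_list (by fun_prop) (by fun_prop)
    · refine RE.all_mem (p := fun (x : (ℕ × List ℕ) × List ℕ) (z : ℕ) =>
        ∃ y ∈ x.2, ∃ D, (y, D) ∈ Ψ ∧ z ∈ D) (l := fun x => x.1.2) ?_ (by fun_prop)
      refine RE.ex_mem (p := fun (x : ((ℕ × List ℕ) × List ℕ) × ℕ) (y : ℕ) =>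
        ∃ D, (y, D) ∈ Ψ ∧ x.2 ∈ D) (l := fun x => x.1.2) ?_ (by fun_prop)
      refine RE.ex (p := fun (x : (((ℕ × List ℕ) × List ℕ) × ℕ) × ℕ) (D : List ℕ) =>
        (x.2, D) ∈ Ψ ∧ x.1.2 ∈ D) ?_
      refine RE.and ?_ (RE.mem_list (by fun_prop) (by fun_prop))
      exact RE.comp hΨ (f := fun x : ((((ℕ × List ℕ) × List ℕ) × ℕ) × ℕ) × List ℕ =>
        (x.1.2, x.2)) (by fun_prop)
  · have hfin : (supp Φ x).Finite := Set.finite_of_encard_le_coe (hn x)
    have hsub : supp Θ x ⊆ ⋃ y ∈ hfin.toFinset, supp Ψ y := by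
      rintro z ⟨D, ⟨E, hE, -, h3⟩, hz⟩
      obtain ⟨y, hy, D', h4, h5⟩ := h3 z hz
      refine Set.mem_iUnion₂.2 ⟨y, ?_, D', h4, h5⟩
      rw [Set.Finite.mem_toFinset]
      exact ⟨E, hE, hy⟩
    refine (Set.encard_le_encard hsub).trans ?_
    have hcard : (hfin.toFinset.card : ℕ∞) ≤ n := by
      rw [← Set.encard_coe_eq_coe_finsetCard, Set.Finite.coe_toFinset]
      exact hn x
    have hgen : ∀ s : Finset ℕ, (⋃ y ∈ s, supp Ψ y).encard ≤ s.card * k := by
      intro s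
      induction s using Finset.induction_on with
      | empty => simp
      | insert a s ha ih =>
        rw [Finset.set_biUnion_insert, Finset.card_insert_of_notMem ha]
        refine (Set.encard_union_le _ _).trans ?_
        push_cast
        rw [add_mul, one_mul, add_comm]
        exact add_le_add ih (hk a)
    refine (hgen _).trans ?_
    push_cast
    exact mul_le_mul_left hcard _
  · ext x
    constructor
    · rintro ⟨E, hE, h3⟩
      choose D hD1 hD2 using h3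
      refine ⟨E.attach.flatMap fun y => D y.1 y.2, ⟨E, hE, ?_, ?_⟩, ?_⟩
      · intro y hy
        refine ⟨D y hy, hD1 y hy, fun z hz => ?_⟩
        exact List.mem_flatMap.2 ⟨⟨y, hy⟩, List.mem_attach _ _, hz⟩
      · intro z hz
        obtain ⟨⟨y, hy⟩, -, hz'⟩ := List.mem_flatMap.1 hz
        exact ⟨y, hy, D y hy, hD1 y hy, hz'⟩
      · intro z hz
        obtain ⟨⟨y, hy⟩, -, hz'⟩ := List.mem_flatMap.1 hz
        exact hD2 y hy z hz'
    · rintro ⟨D, ⟨E, hE, h3, -⟩, hD⟩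
      refine ⟨E, hE, fun y hy => ?_⟩
      obtain ⟨D', h4, h5⟩ := h3 y hy
      exact ⟨D', h4, fun z hz => hD z (h5 z hz)⟩

/-! ### The degrees -/

/-- The sets of natural numbers, preordered by `≤_btte`. -/
def BSet : Type := Set ℕ

instance : Preorder BSet where
  le A B := Le A B
  le_refl := Le.refl
  le_trans _ _ _ := Le.trans

/-- The btte-degrees, with the induced partial order. -/
abbrev Deg : Type := Antisymmetrization BSet (· ≤ ·)

/-- The btte-degree of a set. -/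
def deg (A : Set ℕ) : Deg := toAntisymmetrization (· ≤ ·) (show BSet from A)

theorem deg_le {A B : Set ℕ} : deg A ≤ deg B ↔ Le A B := Iff.rfl

/-! ### The intermediate set -/

/-- The set `{⟨i, m(i)⟩ : i ∈ B} ⊕ Kᶜ`. -/
def C (B : Set ℕ) : Set ℕ :=
  {x | (x % 2 = 0 ∧ (x / 2).unpair.1 ∈ B ∧ m (x / 2).unpair.1 = (x / 2).unpair.2) ∨
    (x % 2 = 1 ∧ x / 2 ∉ K)}

theorem C_odd {B : Set ℕ} {k : ℕ} : 2 * k + 1 ∈ C B ↔ k ∉ K := by
  have h1 : (2 * k + 1) % 2 = 1 := by omega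
  have h2 : (2 * k + 1) / 2 = k := by omega
  unfold C
  simp [h1, h2]

theorem C_even {B : Set ℕ} {i c : ℕ} : 2 * Nat.pair i c ∈ C B ↔ i ∈ B ∧ m i = c := by
  have h1 : (2 * Nat.pair i c) % 2 = 0 := by omega
  have h2 : (2 * Nat.pair i c) / 2 = Nat.pair i c := by omega
  unfold C
  simp [h1, h2]

theorem K_le_C (B : Set ℕ) : Le Kᶜ (C B) := by
  refine ⟨{p | p.2 = [2 * p.1 + 1]}, ?_, ⟨1, fun x => ?_⟩, ?_⟩
  · exact RE.eq (f := fun p : ℕ × List ℕ => p.2) (g := fun p => [2 * p.1 + 1]) (by fun_prop)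
      (by fun_prop)
  · have : supp {p : ℕ × List ℕ | p.2 = [2 * p.1 + 1]} x ⊆ {2 * x + 1} := by
      rintro y ⟨D, h1, h2⟩
      have h1' : D = [2 * x + 1] := h1
      rw [h1'] at h2
      simpa using h2
    exact (Set.encard_le_encard this).trans (by simp)
  · ext x
    constructor
    · intro h
      refine ⟨[2 * x + 1], rfl, ?_⟩
      simp only [List.mem_singleton, forall_eq]
      exact C_odd.2 h
    · rintro ⟨D, h1, h2⟩
      have h1' : D = [2 * x + 1] := h1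
      exact C_odd.1 (h2 _ (by rw [h1']; simp))

theorem C_le_B {B : Set ℕ} (hK : Le Kᶜ B) : Le (C B) B := by
  obtain ⟨Θ, hΘ, ⟨n, hn⟩, hΘB⟩ := hK
  have hM : REPred fun n : ℕ => M n.unpair.1 n.unpair.2 :=
    RE.comp M_re (f := fun n : ℕ => (n.unpair.1, n.unpair.2)) (by fun_prop)
  obtain ⟨g, hg, hgK⟩ := re_red_K hM
  have hgK' : ∀ i c, ¬ M i c ↔ g (Nat.pair i c) ∈ app Θ B := by
    intro i c
    rw [← hΘB]
    have := hgK (Nat.pair i c)
    rw [Nat.unpair_pair] at this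
    exact not_congr this
  let Ψ : Set (ℕ × List ℕ) := {p | (p.1 % 2 = 1 ∧ (p.1 / 2, p.2) ∈ Θ) ∨
    (p.1 % 2 = 0 ∧ ((p.1 / 2).unpair.2 = 0 ∨ M (p.1 / 2).unpair.1 ((p.1 / 2).unpair.2 - 1)) ∧
      ∃ D, p.2 = (p.1 / 2).unpair.1 :: D ∧ (g (p.1 / 2), D) ∈ Θ)}
  refine ⟨Ψ, ?_, ⟨n + 1, fun x => ?_⟩, ?_⟩
  · have hmod : Computable fun p : ℕ × List ℕ => p.1 % 2 := cmod2 Computable.fst
    have hdiv : Computable fun p : ℕ × List ℕ => p.1 / 2 := cdiv2 Computable.fst
    refine RE.or (RE.and (RE.eq hmod (by fun_prop)) ?_) (RE.and (RE.eq hmod (by fun_prop))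
      (RE.and (RE.or (RE.eq (by fun_prop) (by fun_prop)) ?_) ?_))
    · exact RE.comp hΘ (f := fun p : ℕ × List ℕ => (p.1 / 2, p.2)) (by fun_prop)
    · exact RE.comp M_re (f := fun p : ℕ × List ℕ =>
        ((p.1 / 2).unpair.1, (p.1 / 2).unpair.2 - 1)) (by fun_prop)
    · refine RE.ex (p := fun (p : ℕ × List ℕ) (D : List ℕ) =>
        p.2 = (p.1 / 2).unpair.1 :: D ∧ (g (p.1 / 2), D) ∈ Θ) ?_
      have hdiv' : Computable fun p : (ℕ × List ℕ) × List ℕ => p.1.1 / 2 :=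
        cdiv2 (Computable.fst.comp Computable.fst)
      refine RE.and (RE.eq (by fun_prop) (by fun_prop)) ?_
      have hgc : Computable fun p : (ℕ × List ℕ) × List ℕ => g (p.1.1 / 2) := hg.comp hdiv'
      exact RE.comp hΘ (f := fun p : (ℕ × List ℕ) × List ℕ => (g (p.1.1 / 2), p.2)) (by fun_prop)
  · rcases Nat.mod_two_eq_zero_or_one x with hx | hx
    · have : supp Ψ x ⊆ insert (x / 2).unpair.1 (supp Θ (g (x / 2))) := by
        rintro y ⟨D, (⟨h1, -⟩ | ⟨-, -, D', h2, h3⟩), hy⟩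
        · dsimp only at h1; omega
        · dsimp only at h2 h3
          rw [h2] at hy
          rcases List.mem_cons.1 hy with rfl | hy
          · exact Set.mem_insert _ _
          · exact Set.mem_insert_of_mem _ ⟨D', h3, hy⟩
      refine (Set.encard_le_encard this).trans ((Set.encard_insert_le _ _).trans ?_)
      push_cast
      exact add_le_add (hn _) le_rfl
    · have : supp Ψ x ⊆ supp Θ (x / 2) := by
        rintro y ⟨D, (⟨-, h1⟩ | ⟨h1, -⟩), hy⟩
        · exact ⟨D, h1, hy⟩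
        · dsimp only at h1; omega
      refine (Set.encard_le_encard this).trans ((hn _).trans ?_)
      push_cast
      exact le_self_add
  · ext x
    constructor
    · rintro (⟨h0, h1, h2⟩ | ⟨h0, h1⟩)
      · obtain ⟨h3, h4⟩ := m_eq_iff.1 h2
        rw [hgK', Nat.pair_unpair] at h4
        obtain ⟨D, h5, h6⟩ := h4
        refine ⟨(x / 2).unpair.1 :: D, Or.inr ⟨h0, h3, D, rfl, h5⟩, ?_⟩
        intro y hy
        rcases List.mem_cons.1 hy with rfl | hy
        · exact h1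
        · exact h6 y hy
      · have h1' : x / 2 ∈ app Θ B := by rw [← hΘB]; exact h1
        obtain ⟨D, h5, h6⟩ := h1'
        exact ⟨D, Or.inl ⟨h0, h5⟩, h6⟩
    · rintro ⟨D, (⟨h0, h1⟩ | ⟨h0, h1, D', h2, h3⟩), hD⟩
      · right
        refine ⟨h0, ?_⟩
        have : x / 2 ∈ app Θ B := ⟨D, h1, hD⟩
        rw [← hΘB] at this
        exact this
      · left
        dsimp only at h0 h1 h2 h3
        rw [h2] at hD
        refine ⟨h0, hD _ (by simp), m_eq_iff.2 ⟨h1, ?_⟩⟩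
        rw [hgK', Nat.pair_unpair]
        exact ⟨D', h3, fun y hy => hD y (List.mem_cons_of_mem _ hy)⟩

theorem C_not_le {B : Set ℕ} (hB : ¬ REIn K (· ∈ B)) : ¬ Le (C B) Kᶜ := by
  rintro ⟨Φ, hΦ, -, hC⟩
  apply hB
  have h1 : REIn K (fun i : ℕ => ∃ c, ∃ D, (2 * Nat.pair i c, D) ∈ Φ ∧ ∀ y ∈ D, y ∉ K) := by
    refine REIn.ex (S := fun (i c : ℕ) => ∃ D, (2 * Nat.pair i c, D) ∈ Φ ∧ ∀ y ∈ D, y ∉ K) ?_
    refine REIn.ex (S := fun (x : ℕ × ℕ) (D : List ℕ) =>
      (2 * Nat.pair x.1 x.2, D) ∈ Φ ∧ ∀ y ∈ D, y ∉ K) ?_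
    refine REIn.and (REIn.of_re ?_) ?_
    · exact RE.comp hΦ (f := fun x : (ℕ × ℕ) × List ℕ => (2 * Nat.pair x.1.1 x.1.2, x.2))
        (by fun_prop)
    · exact REIn.all_mem (S := fun (_ : (ℕ × ℕ) × List ℕ) (y : ℕ) => y ∉ K) (l := fun x => x.2)
        (REIn.not_mem (by fun_prop)) (by fun_prop)
  refine h1.of_eq fun i => ?_
  constructor
  · rintro ⟨c, hc⟩
    have : 2 * Nat.pair i c ∈ C B := by rw [hC]; exact hc
    exact (C_even.1 this).1
  · intro hi
    have h2 : 2 * Nat.pair i (m i) ∈ C B := C_even.2 ⟨hi, rfl⟩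
    rw [hC] at h2
    exact ⟨m i, h2⟩

/-- The sum of the second components. -/
def sumf (l : List ℕ) : ℕ := l.foldl (fun s z => s + (z / 2).unpair.2) 0

theorem le_sumf {l : List ℕ} {z : ℕ} (hz : z ∈ l) : (z / 2).unpair.2 ≤ sumf l := by
  have h : ∀ (l : List ℕ) (s : ℕ), s ≤ l.foldl (fun s z => s + (z / 2).unpair.2) s ∧
      ∀ z ∈ l, (z / 2).unpair.2 ≤ l.foldl (fun s z => s + (z / 2).unpair.2) s := by
    intro l
    induction l with
    | nil => intro s; exact ⟨le_rfl, fun z hz => absurd hz List.not_mem_nil⟩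
    | cons a l ih =>
      intro s
      obtain ⟨h1, h2⟩ := ih (s + (a / 2).unpair.2)
      refine ⟨le_trans (Nat.le_add_right _ _) h1, fun z hz => ?_⟩
      rcases List.mem_cons.1 hz with rfl | hz
      · exact le_trans (Nat.le_add_left _ _) h1
      · exact h2 z hz
  exact (h l 0).2 z hz

theorem sumf_comp : Computable sumf := by
  refine RE.list_foldl (f := fun l : List ℕ => l) (g := fun _ => 0)
    (h := fun _ x => x.1 + (x.2 / 2).unpair.2) (by fun_prop) (by fun_prop) ?_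
  have h1 : Computable fun p : List ℕ × (ℕ × ℕ) => p.2.2 / 2 :=
    cdiv2 (Computable.snd.comp Computable.snd)
  have h2 : Computable fun p : List ℕ × (ℕ × ℕ) => p.2.1 + (p.2.2 / 2).unpair.2 := by fun_prop
  exact h2

/-- The dominating function dominates the entries of bounded c.e. families. -/
theorem supp_dom {Φ : Set (ℕ × List ℕ)} (hΦ : REPred fun p => p ∈ Φ) {n : ℕ}
    (hn : ∀ x, (supp Φ x).encard ≤ n) :
    ∃ N, ∀ i, N ≤ i → ∀ z ∈ supp Φ i, (z / 2).unpair.2 < m i := by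
  have hsupp : REPred fun x : ℕ × ℕ => x.2 ∈ supp Φ x.1 := by
    refine RE.ex (p := fun (x : ℕ × ℕ) (D : List ℕ) => (x.1, D) ∈ Φ ∧ x.2 ∈ D) ?_
    refine RE.and ?_ (RE.mem_list (by fun_prop) (by fun_prop))
    exact RE.comp hΦ (f := fun x : (ℕ × ℕ) × List ℕ => (x.1.1, x.2)) (by fun_prop)
  have hk : ∀ k : ℕ, ∃ N, ∀ i, N ≤ i → (supp Φ i).encard = k →
      ∀ z ∈ supp Φ i, (z / 2).unpair.2 < m i := by
    intro k
    obtain ⟨F, hF, hF1, hF2⟩ := RE.uniformize (r := fun (i : ℕ) (l : List ℕ) =>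
        l.Nodup ∧ l.length = k ∧ ∀ z ∈ l, z ∈ supp Φ i) (by
      refine RE.and ?_ (RE.and (RE.eq (by fun_prop) (by fun_prop)) ?_)
      · exact RE.comp (RE.cp_nodup (l := fun l : List ℕ => l) (by fun_prop))
          (f := fun x : ℕ × List ℕ => x.2) (by fun_prop)
      · refine RE.all_mem (p := fun (x : ℕ × List ℕ) (z : ℕ) => z ∈ supp Φ x.1)
          (l := fun x => x.2) ?_ (by fun_prop)
        exact RE.comp hsupp (f := fun x : (ℕ × List ℕ) × ℕ => (x.1.1, x.2)) (by fun_prop))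
    have hψ : Partrec fun i => (F i).map sumf := hF.map (sumf_comp.comp Computable.snd)
    obtain ⟨N, hN⟩ := m_dom hψ
    refine ⟨N, fun i hi hcard z hz => ?_⟩
    have hfin : (supp Φ i).Finite := Set.finite_of_encard_eq_coe hcard
    have hc2 : hfin.toFinset.card = k := by
      have : (hfin.toFinset.card : ℕ∞) = k := by
        rw [← Set.encard_coe_eq_coe_finsetCard, Set.Finite.coe_toFinset, hcard]
      exact_mod_cast this
    have hd : (F i).Dom := (hF1 i).2 ⟨hfin.toFinset.toList, Finset.nodup_toList _, by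
      rw [Finset.length_toList, hc2], fun z hz => by
      rw [Finset.mem_toList, Set.Finite.mem_toFinset] at hz
      exact hz⟩
    obtain ⟨h1, h2, h3⟩ := hF2 i _ (Part.get_mem hd)
    have h4 : z ∈ (F i).get hd := by
      have hsub : ((F i).get hd).toFinset ⊆ hfin.toFinset := fun y hy => by
        rw [Set.Finite.mem_toFinset]
        exact h3 y (List.mem_toFinset.1 hy)
      have heq : ((F i).get hd).toFinset = hfin.toFinset := by
        refine Finset.eq_of_subset_of_card_le hsub ?_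
        rw [List.toFinset_card_of_nodup h1, h2, hc2]
      rw [← List.mem_toFinset, heq, Set.Finite.mem_toFinset]
      exact hz
    exact lt_of_le_of_lt (le_sumf h4) (hN i hi _ (Part.mem_map sumf (Part.get_mem hd)))
  choose N hN using hk
  refine ⟨(Finset.range (n + 1)).sup N, fun i hi z hz => ?_⟩
  have hfin : (supp Φ i).Finite := Set.finite_of_encard_le_coe (hn i)
  have hle : (supp Φ i).ncard ≤ n := by
    have := hn i
    rw [← hfin.cast_ncard_eq] at this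
    exact_mod_cast this
  refine hN (supp Φ i).ncard i (le_trans ?_ hi) hfin.cast_ncard_eq.symm z hz
  exact Finset.le_sup (f := N) (Finset.mem_range.2 (by omega))

theorem B_not_le {B : Set ℕ} (hB : ¬ REIn K (· ∈ B)) : ¬ Le B (C B) := by
  classical
  rintro ⟨Φ, hΦ, ⟨n, hn⟩, hBC⟩
  apply hB
  obtain ⟨N, hN⟩ := supp_dom hΦ hn
  let L0 : List ℕ := (List.range N).filter fun i => decide (i ∈ B)
  -- the condition on the elements of a witness
  let Q : ℕ → ℕ → List ℕ → Prop := fun j z L =>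
    (z % 2 = 1 ∧ z / 2 ∉ K) ∨ (z % 2 = 0 ∧ m (z / 2).unpair.1 = (z / 2).unpair.2 ∧
      (z / 2).unpair.1 ∈ L ∧ (z / 2).unpair.1 < j)
  have hRE : REIn K (fun i : ℕ => ∃ L : List ℕ, i ∈ L ∧ ∀ j ∈ L, j ∈ L0 ∨
      ∃ D, (j, D) ∈ Φ ∧ ∀ z ∈ D, Q j z L) := by
    refine REIn.ex (S := fun (i : ℕ) (L : List ℕ) => i ∈ L ∧ ∀ j ∈ L, j ∈ L0 ∨
      ∃ D, (j, D) ∈ Φ ∧ ∀ z ∈ D, Q j z L) ?_
    refine REIn.and (REIn.of_re (RE.mem_list (by fun_prop) (by fun_prop))) ?_
    refine REIn.all_mem (S := fun (x : ℕ × List ℕ) (j : ℕ) => j ∈ L0 ∨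
      ∃ D, (j, D) ∈ Φ ∧ ∀ z ∈ D, Q j z x.2) (l := fun x => x.2) ?_ (by fun_prop)
    refine REIn.or (REIn.of_re (RE.mem_list (by fun_prop) (by fun_prop))) ?_
    refine REIn.ex (S := fun (x : (ℕ × List ℕ) × ℕ) (D : List ℕ) => (x.2, D) ∈ Φ ∧
      ∀ z ∈ D, Q x.2 z x.1.2) ?_
    refine REIn.and (REIn.of_re (RE.comp hΦ
      (f := fun x : ((ℕ × List ℕ) × ℕ) × List ℕ => (x.1.2, x.2)) (by fun_prop))) ?_
    refine REIn.all_mem (S := fun (x : ((ℕ × List ℕ) × ℕ) × List ℕ) (z : ℕ) =>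
      Q x.1.2 z x.1.1.2) (l := fun x => x.2) ?_ (by fun_prop)
    have hm : Computable fun x : (((ℕ × List ℕ) × ℕ) × List ℕ) × ℕ => x.2 % 2 :=
      cmod2 Computable.snd
    have hd : Computable fun x : (((ℕ × List ℕ) × ℕ) × List ℕ) × ℕ => x.2 / 2 :=
      cdiv2 Computable.snd
    refine REIn.or (REIn.and (REIn.of_re (RE.eq hm (by fun_prop))) (REIn.not_mem hd))
      (REIn.and (REIn.of_re (RE.eq hm (by fun_prop))) (REIn.and ?_ (REIn.and
      (REIn.of_re (RE.mem_list (by fun_prop) (by fun_prop)))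
      (REIn.of_re (RE.lt (by fun_prop) (by fun_prop))))))
    exact m_graph_REIn.comp (f := fun x : (((ℕ × List ℕ) × ℕ) × List ℕ) × ℕ =>
      ((x.2 / 2).unpair.1, (x.2 / 2).unpair.2)) (by fun_prop)
  refine hRE.of_eq fun i => ?_
  constructor
  · rintro ⟨L, hiL, hL⟩
    have hall : ∀ j, j ∈ L → j ∈ B := by
      intro j
      induction j using Nat.strong_induction_on with
      | _ j ih =>
        intro hj
        rcases hL j hj with h | ⟨D, hD, hQ⟩
        · have := (List.mem_filter.1 h).2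
          simpa using this
        · rw [hBC]
          refine ⟨D, hD, fun z hz => ?_⟩
          rcases hQ z hz with ⟨h1, h2⟩ | ⟨h1, h2, h3, h4⟩
          · exact Or.inr ⟨h1, h2⟩
          · exact Or.inl ⟨h1, ih _ h4 h3, h2⟩
    exact hall i hiL
  · intro hi
    refine ⟨(List.range (i + 1)).filter fun j => decide (j ∈ B), ?_, ?_⟩
    · rw [List.mem_filter]
      exact ⟨List.mem_range.2 (Nat.lt_succ_self i), by simpa using hi⟩
    · intro j hj
      obtain ⟨hj1, hj2⟩ := List.mem_filter.1 hj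
      have hji : j < i + 1 := List.mem_range.1 hj1
      have hjB : j ∈ B := by simpa using hj2
      by_cases hjN : j < N
      · exact Or.inl (List.mem_filter.2 ⟨List.mem_range.2 hjN, hj2⟩)
      · right
        have hjB' := hjB
        rw [hBC] at hjB'
        obtain ⟨D, hD, hDC⟩ := hjB'
        refine ⟨D, hD, fun z hz => ?_⟩
        rcases hDC z hz with ⟨h1, h2, h3⟩ | ⟨h1, h2⟩
        · right
          have h4 : (z / 2).unpair.2 < m j := hN j (not_lt.1 hjN) z ⟨D, hD, hz⟩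
          have h5 : (z / 2).unpair.1 < j := by
            by_contra hcon
            have := m_mono (not_lt.1 hcon)
            omega
          refine ⟨h1, h3, ?_, h5⟩
          rw [List.mem_filter]
          exact ⟨List.mem_range.2 (by omega), by simpa using h2⟩
        · exact Or.inl ⟨h1, h2⟩

theorem sigma_of_REIn {B : Set ℕ} (h : REIn K (· ∈ B)) : IsSigma02 B := by
  obtain ⟨R, hR, hS⟩ := h
  have hKre : REPred fun y : ℕ => y ∈ K := by
    have h : Partrec fun y : ℕ => (Denumerable.ofNat Nat.Partrec.Code y).eval y :=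
      Nat.Partrec.Code.eval_part.comp (Computable.ofNat _) Computable.id
    exact h.dom_re
  have h1 : REPred fun x : ℕ × Info => R x.1 x.2 ∧ ∀ y ∈ x.2.1, y ∈ K := by
    refine RE.and hR (RE.all_mem (p := fun (_ : ℕ × Info) (y : ℕ) => y ∈ K)
      (l := fun x : ℕ × Info => x.2.1) (RE.comp hKre Computable.snd) (by fun_prop))
  have h2 : REPred fun c : Info => ∃ y ∈ c.2, y ∈ K :=
    RE.ex_mem (p := fun (_ : Info) (y : ℕ) => y ∈ K) (l := fun c : Info => c.2)
      (RE.comp hKre Computable.snd) (by fun_prop)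
  obtain ⟨q1, hq1, h1'⟩ := RE.re_iff.1 h1
  obtain ⟨q2, hq2, h2'⟩ := RE.re_iff.1 h2
  refine ⟨fun x => (decode (α := Info × ℕ) x.2.1).elim false
    (fun d => q1 (x.1, d.1) d.2 && !(q2 d.1 x.2.2)), ?_, fun x => ?_⟩
  · have h3 : Computable fun x : ℕ × ℕ × ℕ => decode (α := Info × ℕ) x.2.1 := by fun_prop
    have h4 : Computable₂ fun (x : ℕ × ℕ × ℕ) (d : Info × ℕ) =>
        q1 (x.1, d.1) d.2 && !(q2 d.1 x.2.2) := by
      have e1 : Computable fun y : (ℕ × ℕ × ℕ) × (Info × ℕ) => q1 (y.1.1, y.2.1) y.2.2 :=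
        hq1.comp (by fun_prop : Computable fun y : (ℕ × ℕ × ℕ) × (Info × ℕ) => (y.1.1, y.2.1))
          (by fun_prop : Computable fun y : (ℕ × ℕ × ℕ) × (Info × ℕ) => y.2.2)
      have e2 : Computable fun y : (ℕ × ℕ × ℕ) × (Info × ℕ) => q2 y.2.1 y.1.2.2 :=
        hq2.comp (by fun_prop : Computable fun y : (ℕ × ℕ × ℕ) × (Info × ℕ) => y.2.1)
          (by fun_prop : Computable fun y : (ℕ × ℕ × ℕ) × (Info × ℕ) => y.1.2.2)
      exact RE.cand e1 (RE.cnot e2)
    refine (Computable.option_casesOn h3 (Computable.const false) h4).of_eq fun x => ?_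
    cases decode (α := Info × ℕ) x.2.1 <;> rfl
  · have hS' : x ∈ B ↔ ∃ c, R x c ∧ Ok K c := hS x
    rw [hS']
    constructor
    · rintro ⟨c, hc, hok⟩
      obtain ⟨t, ht⟩ := (h1' (x, c)).1 ⟨hc, hok.1⟩
      refine ⟨encode (c, t), fun b => ?_⟩
      simp only [encodek, Option.elim_some, ht, Bool.true_and, Bool.not_eq_true']
      by_contra hcon
      rw [Bool.not_eq_false] at hcon
      obtain ⟨y, hy, hyK⟩ := (h2' c).2 ⟨b, hcon⟩
      exact hok.2 y hy hyK
    · rintro ⟨a, ha⟩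
      rcases hd : decode (α := Info × ℕ) a with _ | ⟨c, t⟩
      · have := ha 0
        dsimp only at this
        rw [hd] at this
        simp at this
      · have h3 : ∀ b, q1 (x, c) t = true ∧ q2 c b = false := by
          intro b
          have := ha b
          dsimp only at this
          rw [hd] at this
          simpa using this
        obtain ⟨h4, h5⟩ := (h1' (x, c)).2 ⟨t, (h3 0).1⟩
        refine ⟨c, h4, h5, fun y hy hyK => ?_⟩
        obtain ⟨b, hb⟩ := (h2' c).1 ⟨y, hy, hyK⟩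
        rw [(h3 b).2] at hb
        exact absurd hb (by simp)

/-- Every set whose degree is a minimal cover of the degree of `Kᶜ` is c.e. in `K`. -/
theorem cover_REIn {B : Set ℕ} (h : deg Kᶜ ⋖ deg B) : REIn K (· ∈ B) := by
  by_contra hB
  have hK : Le Kᶜ B := h.1.le
  have h1 : deg Kᶜ < deg (C B) := lt_of_le_not_ge (K_le_C B) fun h => C_not_le hB h
  have h2 : deg (C B) < deg B := lt_of_le_not_ge (C_le_B hK) fun h => B_not_le hB h
  exact h.2 h1 h2

theorem countable_REIn : {B : Set ℕ | REIn K (· ∈ B)}.Countable := by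
  have : {B : Set ℕ | REIn K (· ∈ B)} ⊆
      Set.range fun e : ℕ => {x : ℕ | ∃ c : Info, W e (encode (x, c)) ∧ Ok K c} := by
    rintro B ⟨R, hR, hS⟩
    obtain ⟨g, -, hg⟩ := smn (α := ℕ) (β := ℕ × Info) (P := fun _ y => R y.1 y.2)
      (RE.comp hR (f := fun x : ℕ × (ℕ × Info) => x.2) (by fun_prop))
    refine ⟨g 0, ?_⟩
    ext x
    have hS' : x ∈ B ↔ ∃ c, R x c ∧ Ok K c := hS x
    show (∃ c : Info, W (g 0) (encode (x, c)) ∧ Ok K c) ↔ x ∈ B
    rw [hS']
    refine exists_congr fun c => and_congr_left fun _ => ?_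
    exact hg 0 (x, c)
  exact (Set.countable_range _).mono this

/-- **The degree `0'_btte` has only countably many minimal covers; all the sets in them are
`Σ⁰₂`.** -/
theorem result :
    (∀ B : Set ℕ, deg Kᶜ ⋖ deg B → IsSigma02 B) ∧
    {d : Deg | deg Kᶜ ⋖ d}.Countable ∧
    Cardinal.mk {d : Deg | deg Kᶜ ⋖ d} < Cardinal.continuum := by
  have hcount : {d : Deg | deg Kᶜ ⋖ d}.Countable := by
    have : {d : Deg | deg Kᶜ ⋖ d} ⊆ deg '' {B : Set ℕ | REIn K (· ∈ B)} := by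
      intro d hd
      induction d using Antisymmetrization.ind with
      | _ B => exact ⟨B, cover_REIn hd, rfl⟩
    exact (countable_REIn.image _).mono this
  refine ⟨fun B hB => sigma_of_REIn (cover_REIn hB), hcount, ?_⟩
  exact lt_of_le_of_lt (Cardinal.mk_le_aleph0_iff.2 hcount.to_subtype) Cardinal.aleph0_lt_continuum

end Pool.Agent.Results.MP_36bef2_lc.CountablyManyCovers
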